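import Pool.Agent.Helper73.OB.GoalsA

/-!
# Project OB (MP_fc0446_an): packet COD2B
-/

set_option autoImplicit false

open MeasureTheory ProbabilityTheory
open scoped ENNReal

namespace Pool.Agent.Helper41.OB

open Pool.Agent.Helper73.OB

/-- the law of model 3 has no mass at `r z = 1` -/
theorem lawL3_one (hP : S_PRB) (e : unitInterval) (z : Bit) :
    lawL3 e {s | s.2.2.2.1 z = 1} = 0 := by
  have := hP.1
  have := (hP.2 e).1
  have h1 : {s : Lb3 | s.2.2.2.1 z = 1} =
      (Set.univ : Set Bool) ×ˢ ((Set.univ : Set (Bit → Bit)) ×ˢ ((Set.univ : Set unitInterval) ×ˢ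
        ({r : Bit → unitInterval | r z = 1} ×ˢ (Set.univ : Set (Bit → Bit))))) := by
    ext s
    simp
  rw [lawL3, h1, Measure.prod_prod, Measure.prod_prod, Measure.prod_prod, Measure.prod_prod]
  have h2 : uni2 {r : Bit → unitInterval | r z = 1} = 0 := Measure.pi_hyperplane (fun _ => uni) z 1
  rw [h2]
  simp

section

variable {S X : Type} {β : S → S} {p : Bit → S} {δ : Bit} {f : S → X → X}

/-- The points where the reals are smaller than `1`. -/
theorem ae_lt_one [Finite S] (hP : S_PRB) {e : unitInterval} [MeasurableSpace X] {μ : Measure X}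
    [IsProbabilityMeasure μ] (hf : Sys β μ f) {l : X → Lb3} (hl : Bnl β μ f l (lawL3 e)) :
    ∀ᵐ x ∂μ, ∀ (w : List S) (z : Bit), ((l (run f w x)).2.2.2.1 z : ℝ) < 1 := by
  have : IsProbabilityMeasure (lawL3 e) := (hP.2 e).2.2.2.1
  have : Countable S := Finite.to_countable
  rw [ae_all_iff]
  intro w
  rw [ae_all_iff]
  intro z
  have h0 : MeasurePreserving l μ (lawL3 e) :=
    (measurePreserving_eval_infinitePi (fun _ : RW β => lawL3 e) (rootW β)).comp hl.2
  have h1 : MeasurePreserving (fun x => l (run f w x)) μ (lawL3 e) := h0.comp (hf.run_mp w)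
  have h2 : ∀ᵐ s ∂(lawL3 e), (s.2.2.2.1 z : ℝ) < 1 := by
    rw [ae_iff]
    refine measure_mono_null ?_ (lawL3_one hP e z)
    intro s hs
    simp only [Set.mem_ofPred_eq, not_lt] at hs ⊢
    exact le_antisymm (s.2.2.2.1 z).2.2 hs
  exact h1.quasiMeasurePreserving.ae h2

/-- The encoding of the skeleton. -/
theorem enc_S3 (l : X → Lb3) (x : X) : enc p δ f (S3 p δ f l) x = E3 p δ f l x := by
  classical
  have hd : δ + 1 ≠ δ := by
    intro h
    simp at h
  unfold enc E3
  simp only [S3]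
  refine Prod.ext rfl (Prod.ext ?_ (Prod.ext rfl ?_))
  · simp only
    by_cases hM : (l x).1 = true
    · rw [if_pos hM, if_pos hM]
      funext z
      rw [if_neg hd, if_pos hM]
    · rw [if_neg hM, if_neg hM]
  · funext z
    simp only
    by_cases hs : Stores p δ f (fun y => (l y).1) (fun y => (l y).2.2.1) x z
    · rw [if_pos hs, if_pos hs, if_pos trivial]
      congr 1
      obtain ⟨hM, hV⟩ := hs
      unfold bitAt
      have h1 : pnear p δ f (fun y => (l y).1) x z = x := by
        unfold pnear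
        rw [if_pos hM]
      have h2 : snear p δ f (fun y => (l y).1) x z = z := by
        unfold snear
        rw [if_pos hM]
      have h3 : knear p δ f (fun y => (l y).1) x z = 0 := by
        unfold knear
        rw [if_pos hM]
      rw [h1, h2, h3, if_pos hV]
      simp
    · rw [if_neg hs, if_neg hs]

/-- The block bits are read off at the slots which store them. -/
theorem bit_eq (hB : S_BLK) (hF : Fr β p δ) (hinv : ∀ s x, f (β s) (f s x) = x) (l : X → Lb3)
    (hpk : ∀ o : Bit, ∀ r : unitInterval, (r : ℝ) < 1 → unpack (pack o r) = (o, r)) (x : X)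
    (hr : ∀ (w : List S) (z : Bit), ((l (run f w x)).2.2.2.1 z : ℝ) < 1)
    (hfar : ∀ z : Bit, ∃ k, 1 ≤ k ∧ (l (run f (uw p δ k z) x)).1 = true)
    (hV : ∀ z : Bit, (l (pfar p δ f (fun y => (l y).1) x z)).2.2.1 ≠
      (l (pnear p δ f (fun y => (l y).1) x z)).2.2.1) (z : Bit) :
    bitAt p δ f (fun y => (E3 p δ f l y).1) (fun y => (E3 p δ f l y).2.2.1)
      (fun y z => (unpack ((E3 p δ f l y).2.2.2 z)).1) x z =
    bitAt p δ f (fun y => (l y).1) (fun y => (l y).2.2.1) (fun y => (l y).2.2.2.2) x z := by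
  classical
  obtain ⟨-, b1, b2, b3, -, b5, -⟩ := hB S X β p δ hF f hinv (fun y => (l y).1) x hfar z
  -- the vertices of the ends
  have hrf : ∀ z', ((l (pfar p δ f (fun y => (l y).1) x z)).2.2.2.1 z' : ℝ) < 1 := fun z' => hr _ z'
  have hrn : ∀ z', ((l (pnear p δ f (fun y => (l y).1) x z)).2.2.2.1 z' : ℝ) < 1 := by
    intro z'
    unfold pnear
    split_ifs
    · exact hr [] z'
    · exact hr _ z'
  -- at a slot which stores its bit
  have key : ∀ y z', ((l y).2.2.2.1 z' : ℝ) < 1 →
      Stores p δ f (fun y => (l y).1) (fun y => (l y).2.2.1) y z' →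
      (unpack ((E3 p δ f l y).2.2.2 z')).1 = (l y).2.2.2.2 z' := by
    intro y z' h1 h2
    simp only [E3]
    rw [if_pos h2, hpk _ _ h1]
  unfold bitAt
  change (if (l (pfar p δ f (fun y => (l y).1) x z)).2.2.1 <
      (l (pnear p δ f (fun y => (l y).1) x z)).2.2.1 then
      (unpack ((E3 p δ f l (pnear p δ f (fun y => (l y).1) x z)).2.2.2
        (snear p δ f (fun y => (l y).1) x z))).1 +
        (knear p δ f (fun y => (l y).1) x z : Bit) * (δ + 1)
    else (unpack ((E3 p δ f l (pfar p δ f (fun y => (l y).1) x z)).2.2.2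
        (sfar p δ f (fun y => (l y).1) x z))).1 +
        ((kfar p δ f (fun y => (l y).1) x z : Bit) + 1) * (δ + 1) + δ) = _
  by_cases hlt : (l (pfar p δ f (fun y => (l y).1) x z)).2.2.1 <
      (l (pnear p δ f (fun y => (l y).1) x z)).2.2.1
  · rw [if_pos hlt, if_pos hlt, key _ _ (hrn _)]
    exact ⟨b2, by rw [b5]; exact hlt⟩
  · rw [if_neg hlt, if_neg hlt, key _ _ (hrf _)]
    refine ⟨b1, ?_⟩
    rw [b3]
    exact lt_of_le_of_ne (not_lt.1 hlt) (hV z).symm

/-- Decoding. -/
theorem dec_E3 (hB : S_BLK) (hF : Fr β p δ) (hinv : ∀ s x, f (β s) (f s x) = x) (l : X → Lb3)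
    (hpk : ∀ o : Bit, ∀ r : unitInterval, (r : ℝ) < 1 → unpack (pack o r) = (o, r)) (x : X)
    (hr : ∀ (w : List S) (z : Bit), ((l (run f w x)).2.2.2.1 z : ℝ) < 1)
    (hfar : ∀ z : Bit, ∃ k, 1 ≤ k ∧ (l (run f (uw p δ k z) x)).1 = true)
    (hV : ∀ z : Bit, (l (pfar p δ f (fun y => (l y).1) x z)).2.2.1 ≠
      (l (pnear p δ f (fun y => (l y).1) x z)).2.2.1) :
    dec p δ f (E3 p δ f l) x = S3 p δ f l x := by
  classical
  have hb := bit_eq hB hF hinv l hpk x hr hfar hV
  unfold dec S3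
  refine Prod.ext rfl (Prod.ext ?_ (Prod.ext rfl ?_))
  · simp only
    funext d z
    rw [hb z]
    by_cases hd : d = δ
    · rw [if_pos hd, if_pos hd]
    · rw [if_neg hd, if_neg hd]
      by_cases hM : (l x).1 = true
      · rw [if_pos hM]
        simp only [E3]
        rw [if_pos hM, if_pos hM]
      · rw [if_neg hM]
        simp only [E3]
        rw [if_neg hM]
  · simp only
    funext z
    change (if Stores p δ f (fun y => (l y).1) (fun y => (l y).2.2.1) x z then
      (unpack (if Stores p δ f (fun y => (l y).1) (fun y => (l y).2.2.1) x z then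
        pack ((l x).2.2.2.2 z) ((l x).2.2.2.1 z) else (l x).2.2.2.1 z)).2
      else (if Stores p δ f (fun y => (l y).1) (fun y => (l y).2.2.1) x z then
        pack ((l x).2.2.2.2 z) ((l x).2.2.2.1 z) else (l x).2.2.2.1 z)) = (l x).2.2.2.1 z
    split_ifs with hs
    · have h1 : ((l x).2.2.2.1 z : ℝ) < 1 := hr [] z
      rw [hpk _ _ h1]
    · rfl

end

theorem cod2b (hP : S_PRB) (hPk : S_PACK) (hFar : S_FAR) (hB : S_BLK) : S_COD2B := by
  intro S _ β p δ hF e he X _ μ _ f hf l hl
  have : IsProbabilityMeasure (lawL3 e) := (hP.2 e).2.2.2.1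
  have h1 := ae_lt_one hP hf hl
  have h2 := hFar S β p δ hF X μ f hf Lb3 (lawL3 e) l hl (fun a => a.1) (fun a => a.2.2.1)
    measurable_fst (measurable_fst.comp (measurable_snd.comp measurable_snd))
    (by
      rw [(hP.2 e).2.2.2.2.2.2.2.1]
      rw [ENNReal.ofReal_pos]
      exact_mod_cast he)
    (hP.2 e).2.2.2.2.2.2.2.2.1
  filter_upwards [h1, h2] with x hx1 hx2
  refine ⟨dec_E3 hB hF hf.inv l hPk.2.2.1 x hx1 (fun z => (hx2 z).1) (fun z => ?_), enc_S3 l x⟩
  unfold pnear
  split_ifs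
  · exact (hx2 z).2.1
  · exact (hx2 z).2.2

end Pool.Agent.Helper41.OB
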