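import Pool.Agent.Helper73.OB.GoalsB

/-!
# Project OB (MP_fc0446_an): packet SPEC, the spectral bound
-/

set_option autoImplicit false

open MeasureTheory
open scoped ENNReal symmDiff

namespace Pool.Agent.Helper41.OB

open Pool.Agent.Helper73.OB

/-- bounded and measurable -/
def BM {X : Type} [MeasurableSpace X] (φ : X → ℝ) : Prop := Measurable φ ∧ ∃ b, ∀ x, |φ x| ≤ b

/-- the sum over the words of length `n` -/
noncomputable def W {S X : Type} [Fintype S] (f : S → X → X) (n : ℕ) (φ : X → ℝ) (x : X) : ℝ :=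
  ∑ u : Fin n → S, φ (run f (List.ofFn u) x)

section BMs

variable {X : Type} [MeasurableSpace X] {φ ψ : X → ℝ}

theorem BM.integrable {μ : Measure X} [IsProbabilityMeasure μ] (h : BM φ) : Integrable φ μ := by
  obtain ⟨h1, b, hb⟩ := h
  exact Integrable.of_bound h1.aestronglyMeasurable b (ae_of_all _ fun x => hb x)

theorem BM.mul (h : BM φ) (h' : BM ψ) : BM fun x => φ x * ψ x := by
  obtain ⟨h1, b, hb⟩ := h
  obtain ⟨h2, c, hc⟩ := h'
  refine ⟨h1.mul h2, b * c, fun x => ?_⟩
  rw [abs_mul]
  exact mul_le_mul (hb x) (hc x) (abs_nonneg _) ((abs_nonneg _).trans (hb x))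

theorem BM.add (h : BM φ) (h' : BM ψ) : BM fun x => φ x + ψ x := by
  obtain ⟨h1, b, hb⟩ := h
  obtain ⟨h2, c, hc⟩ := h'
  exact ⟨h1.add h2, b + c, fun x => (abs_add_le _ _).trans (add_le_add (hb x) (hc x))⟩

theorem BM.const (c : ℝ) : BM fun _ : X => c := ⟨measurable_const, |c|, fun _ => le_rfl⟩

theorem BM.comp {g : X → X} (h : BM φ) (hg : Measurable g) : BM fun x => φ (g x) := by
  obtain ⟨h1, b, hb⟩ := h
  exact ⟨h1.comp hg, b, fun x => hb (g x)⟩

theorem BM.sum {ι : Type} {s : Finset ι} {F : ι → X → ℝ} (h : ∀ i ∈ s, BM (F i)) :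
    BM fun x => ∑ i ∈ s, F i x := by
  classical
  induction s using Finset.induction_on with
  | empty => simpa using BM.const (X := X) 0
  | insert i s hi ih =>
    have h1 := (h i (Finset.mem_insert_self i s)).add
      (ih fun j hj => h j (Finset.mem_insert_of_mem hj))
    simpa only [Finset.sum_insert hi] using h1

theorem BM.sub (h : BM φ) (h' : BM ψ) : BM fun x => φ x - ψ x := by
  have h1 := h.add ((BM.const (-1)).mul h')
  have h2 : (fun x => φ x - ψ x) = fun x => φ x + -1 * ψ x := by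
    funext x
    ring
  rw [h2]
  exact h1

theorem int_add {μ : Measure X} [IsProbabilityMeasure μ] (h : BM φ) (h' : BM ψ) :
    ∫ x, (φ x + ψ x) ∂μ = ∫ x, φ x ∂μ + ∫ x, ψ x ∂μ := integral_add h.integrable h'.integrable

theorem int_sub {μ : Measure X} [IsProbabilityMeasure μ] (h : BM φ) (h' : BM ψ) :
    ∫ x, (φ x - ψ x) ∂μ = ∫ x, φ x ∂μ - ∫ x, ψ x ∂μ := integral_sub h.integrable h'.integrable

theorem int_mono {μ : Measure X} [IsProbabilityMeasure μ] (h : BM φ) (h' : BM ψ)
    (hl : ∀ x, φ x ≤ ψ x) : ∫ x, φ x ∂μ ≤ ∫ x, ψ x ∂μ :=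
  integral_mono h.integrable h'.integrable hl

/-- Cauchy-Schwarz -/
theorem cs {μ : Measure X} [IsProbabilityMeasure μ] (h : BM φ) (h' : BM ψ) :
    ∫ x, φ x * ψ x ∂μ ≤ Real.sqrt (∫ x, φ x * φ x ∂μ) * Real.sqrt (∫ x, ψ x * ψ x ∂μ) := by
  have h0 : 0 ≤ ∫ x, φ x * φ x ∂μ := integral_nonneg fun x => mul_self_nonneg _
  have h1 : 0 ≤ ∫ x, ψ x * ψ x ∂μ := integral_nonneg fun x => mul_self_nonneg _
  have key : ∀ t : ℝ, 0 ≤ (∫ x, ψ x * ψ x ∂μ) * (t * t) + (-2 * ∫ x, φ x * ψ x ∂μ) * t +
      ∫ x, φ x * φ x ∂μ := by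
    intro t
    have h2 : 0 ≤ ∫ x, (φ x - t * ψ x) * (φ x - t * ψ x) ∂μ :=
      integral_nonneg fun x => mul_self_nonneg _
    have h3 : ∫ x, (φ x - t * ψ x) * (φ x - t * ψ x) ∂μ =
        ∫ x, (φ x * φ x + ((-2 * t) * (φ x * ψ x) + (t * t) * (ψ x * ψ x))) ∂μ := by
      congr 1
      funext x
      ring
    rw [h3, int_add (h.mul h) (((BM.const _).mul (h.mul h')).add ((BM.const _).mul (h'.mul h'))),
      int_add ((BM.const _).mul (h.mul h')) ((BM.const _).mul (h'.mul h')), integral_const_mul,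
      integral_const_mul] at h2
    linarith
  have h4 := discrim_le_zero key
  rw [discrim] at h4
  rw [← Real.sqrt_mul h0]
  apply Real.le_sqrt_of_sq_le
  nlinarith

end BMs

section Words

variable {S X : Type} [Fintype S] {f : S → X → X}

theorem W_zero (φ : X → ℝ) (x : X) : W f 0 φ x = φ x := by
  simp [W]

theorem W_succ (n : ℕ) (φ : X → ℝ) (x : X) : W f (n + 1) φ x = ∑ s, W f n φ (f s x) := by
  unfold W
  rw [← (Fin.consEquiv (fun _ : Fin (n + 1) => S)).sum_comp, Fintype.sum_prod_type]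
  refine Finset.sum_congr rfl fun s _ => Finset.sum_congr rfl fun u _ => ?_
  congr 1
  simp [Fin.consEquiv, List.ofFn_succ]

theorem W_add (n : ℕ) (φ ψ : X → ℝ) (x : X) :
    W f n (fun y => φ y + ψ y) x = W f n φ x + W f n ψ x := Finset.sum_add_distrib

theorem W_const (n : ℕ) (c : ℝ) (x : X) : W f n (fun _ => c) x = (Fintype.card S : ℝ) ^ n * c := by
  simp [W]

variable [MeasurableSpace X] {μ : Measure X} [IsProbabilityMeasure μ] {β : S → S} {φ ψ : X → ℝ}

theorem BM.run (hf : Sys β μ f) (h : BM φ) (u : List S) : BM fun x => φ (run f u x) :=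
  h.comp (hf.run_mp u).measurable

theorem BM.W (hf : Sys β μ f) (h : BM φ) (n : ℕ) : BM (W f n φ) :=
  BM.sum fun u _ => h.run hf (List.ofFn u)

theorem int_comp (hf : Sys β μ f) (h : BM φ) (u : List S) :
    ∫ x, φ (Pool.Agent.Helper73.OB.run f u x) ∂μ = ∫ x, φ x ∂μ := by
  have h1 := hf.run_mp u
  have h2 := integral_map (μ := μ) h1.measurable.aemeasurable (f := φ) h.1.aestronglyMeasurable
  rw [h1.map_eq] at h2
  exact h2.symm

/-- The sum of the compositions with the letters is symmetric. -/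
theorem adj (hβ : ∀ s, β (β s) = s) (hf : Sys β μ f) (h : BM φ) (h' : BM ψ) :
    ∫ x, (∑ s, φ (f s x)) * ψ x ∂μ = ∫ x, φ x * ∑ s, ψ (f s x) ∂μ := by
  have e : ∀ s x, f s (f (β s) x) = x := fun s x => by
    have := hf.inv (β s) x
    rwa [hβ] at this
  have h1 : ∀ s, ∫ x, φ (f s x) * ψ x ∂μ = ∫ x, φ x * ψ (f (β s) x) ∂μ := by
    intro s
    have h2 : BM fun x => φ (f s x) * ψ x := (h.run hf [s]).mul h'
    have h3 := int_comp hf h2 [β s]
    simp only [run_cons, run_nil, e] at h3
    exact h3.symm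
  have hs : ∀ s, BM fun x => φ (f s x) := fun s => h.run hf [s]
  have hs' : ∀ s, BM fun x => ψ (f s x) := fun s => h'.run hf [s]
  have h2 : ∫ x, (∑ s, φ (f s x)) * ψ x ∂μ = ∑ s, ∫ x, φ (f s x) * ψ x ∂μ := by
    rw [← integral_finsetSum _ fun s _ => ((hs s).mul h').integrable]
    simp only [Finset.sum_mul]
  have h3 : ∫ x, φ x * ∑ s, ψ (f s x) ∂μ = ∑ s, ∫ x, φ x * ψ (f s x) ∂μ := by
    rw [← integral_finsetSum _ fun s _ => (h.mul (hs' s)).integrable]
    simp only [Finset.mul_sum]
  rw [h2, h3]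
  simp only [h1]
  exact (Equiv.sum_comp (Function.Involutive.toPerm β hβ) fun s => ∫ x, φ x * ψ (f s x) ∂μ)

theorem W_adj (hβ : ∀ s, β (β s) = s) (hf : Sys β μ f) (h : BM φ) (j k : ℕ) :
    ∫ x, W f j φ x * W f (k + 1) φ x ∂μ = ∫ x, W f (j + 1) φ x * W f k φ x ∂μ := by
  simp only [W_succ]
  exact (adj hβ hf (h.W hf j) (h.W hf k)).symm

theorem W_pair (hβ : ∀ s, β (β s) = s) (hf : Sys β μ f) (h : BM φ) (j k : ℕ) :
    ∫ x, W f j φ x * W f k φ x ∂μ = ∫ x, W f (j + k) φ x * φ x ∂μ := by
  induction k generalizing j with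
  | zero => simp only [W_zero, add_zero]
  | succ k ih => rw [W_adj hβ hf h, ih, Nat.add_right_comm, Nat.add_assoc]

theorem W_int (hf : Sys β μ f) (h : BM φ) (h' : BM ψ) (n : ℕ) :
    ∫ x, W f n φ x * ψ x ∂μ =
      ∑ u : Fin n → S, ∫ x, φ (Pool.Agent.Helper73.OB.run f (List.ofFn u) x) * ψ x ∂μ := by
  rw [← integral_finsetSum _ fun u _ => ((h.run hf (List.ofFn u)).mul h').integrable]
  unfold OB.W
  simp only [Finset.sum_mul]

/-- The spectral bound for functions with decay of correlations. -/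
theorem bound (hL : S_LCS) (hβ : ∀ s, β (β s) = s) (hf : Sys β μ f) (h : BM φ) (h' : BM ψ)
    {r C : ℝ} (hr : 0 ≤ r)
    (hC : ∀ n : ℕ, |∑ u : Fin n → S,
      ∫ x, φ (Pool.Agent.Helper73.OB.run f (List.ofFn u) x) * φ x ∂μ| ≤ C * r ^ n) (n : ℕ) :
    ∫ x, W f n φ x * ψ x ∂μ ≤
      r ^ n * Real.sqrt (∫ x, φ x * φ x ∂μ) * Real.sqrt (∫ x, ψ x * ψ x ∂μ) := by
  have hn : ∀ k, 0 ≤ ∫ x, W f k φ x * W f k φ x ∂μ := fun k =>
    integral_nonneg fun x => mul_self_nonneg _
  have hC0 : 0 ≤ C := by
    have := (abs_nonneg _).trans (hC 0)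
    simpa using this
  have h1 := hL (fun k => Real.sqrt (∫ x, W f k φ x * W f k φ x ∂μ)) r (Real.sqrt C) hr
    (fun k => Real.sqrt_nonneg _)
    (fun k => by
      rw [Real.sq_sqrt (hn _), W_adj hβ hf h (k + 1) k]
      have h2 := cs (μ := μ) (h.W hf (k + 2)) (h.W hf k)
      rw [mul_comm]
      exact h2)
    (fun k => by
      apply Real.sqrt_le_iff.2
      refine ⟨by positivity, ?_⟩
      rw [mul_pow, Real.sq_sqrt hC0, W_pair hβ hf h, W_int hf h h, ← pow_mul, mul_comm k 2, two_mul]
      exact (le_abs_self _).trans (hC _)) n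
  refine (cs (μ := μ) (h.W hf n) h').trans (mul_le_mul_of_nonneg_right ?_ (Real.sqrt_nonneg _))
  simpa only [W_zero] using h1

theorem length_red (u : List S) : (red β u).length ≤ u.length := by
  induction u with
  | nil => exact le_rfl
  | cons a u ih =>
    rw [red_cons]
    unfold ls
    split_ifs
    · rw [List.length_tail, List.length_cons]
      omega
    · rw [List.length_cons, List.length_cons]
      omega

/-- Approximation by cylinder sets. -/
theorem approx {L : Type} [MeasurableSpace L] {law : Measure L} [IsProbabilityMeasure law]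
    {l : X → L} (hl : Bnl β μ f l law) {B : Set X} (hB : MeasurableSet[sig f l {w | Red β w}] B)
    {ε : ℝ} (hε : 0 < ε) :
    MeasurableSet B ∧ ∃ (Q : Finset (List S)) (B' : Set X), (∀ w ∈ Q, Red β w) ∧
      MeasurableSet[sig f l {w | w ∈ Q}] B' ∧ MeasurableSet B' ∧ μ (B ∆ B') < ENNReal.ofReal ε := by
  classical
  obtain ⟨B₀, hB₀, rfl⟩ := sig_iff.1 hB
  have hB1 : MeasurableSet (α := RW β → L) B₀ := hB₀
  have hd : (iid β law).MeasureDense (measurableCylinders fun _ : RW β => L) :=
    Measure.MeasureDense.of_generateFrom_isSetAlgebra_finite _ isSetAlgebra_measurableCylinders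
      generateFrom_measurableCylinders.symm
  obtain ⟨t, ht, hlt⟩ := hd.approx B₀ hB1 (measure_ne_top _ _) ε hε
  obtain ⟨Q₀, T, hT, rfl⟩ := (mem_measurableCylinders t).1 ht
  refine ⟨hl.2.measurable hB1, Q₀.image Subtype.val, field β f l ⁻¹' (cylinder Q₀ T), ?_, ?_, ?_, ?_⟩
  · intro w hw
    obtain ⟨v, -, rfl⟩ := Finset.mem_image.1 hw
    exact v.2
  · have hm : ∀ i : Q₀, Measurable[sig f l {w | w ∈ Q₀.image Subtype.val}]
        (fun x => l (Pool.Agent.Helper73.OB.run f i.1.1 x)) := by
      intro i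
      have h1 : MeasurableSpace.comap (fun x => l (Pool.Agent.Helper73.OB.run f i.1.1 x))
          inferInstance ≤ sig f l {w | w ∈ Q₀.image Subtype.val} :=
        le_iSup₂ (f := fun (w : List S) (_ : w ∈ {w | w ∈ Q₀.image Subtype.val}) =>
          MeasurableSpace.comap (fun x => l (Pool.Agent.Helper73.OB.run f w x)) inferInstance)
          i.1.1 (Finset.mem_image_of_mem _ i.2)
      exact measurable_iff_comap_le.2 h1
    have hm2 : Measurable[sig f l {w | w ∈ Q₀.image Subtype.val}]
        (fun x (i : Q₀) => l (Pool.Agent.Helper73.OB.run f i.1.1 x)) := 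
      (@measurable_pi_iff _ _ _ (sig f l {w | w ∈ Q₀.image Subtype.val}) _ _).2 hm
    exact hm2 hT
  · exact hl.2.measurable hT.cylinder
  · have h2 : ((fun x (w : ({w | Red β w} : Set (List S))) =>
        l (Pool.Agent.Helper73.OB.run f w.1 x)) ⁻¹' B₀) ∆ (field β f l ⁻¹' (cylinder Q₀ T)) =
        field β f l ⁻¹' (B₀ ∆ cylinder Q₀ T) := rfl
    rw [h2, hl.2.measure_preimage (hB1.symmDiff hT.cylinder).nullMeasurableSet]
    exact hlt

/-- the indicator function -/
noncomputable def ind (A : Set X) (x : X) : ℝ := A.indicator (fun _ => (1 : ℝ)) x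

omit [Fintype S] [IsProbabilityMeasure μ] in
theorem BM.ind {A : Set X} (hA : MeasurableSet A) : BM (ind A) := by
  refine ⟨measurable_const.indicator hA, 1, fun x => ?_⟩
  unfold OB.ind
  by_cases h : x ∈ A
  · rw [Set.indicator_of_mem h, abs_one]
  · rw [Set.indicator_of_notMem h, abs_zero]
    exact zero_le_one

omit [Fintype S] in
theorem int_ind {A : Set X} (hA : MeasurableSet A) : ∫ x, ind A x ∂μ = μ.real A := by
  unfold ind
  rw [integral_indicator hA]
  simp

omit [Fintype S] [MeasurableSpace X] [IsProbabilityMeasure μ] in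
theorem ind_mul (A B : Set X) (x : X) : ind A x * ind B x = ind (A ∩ B) x := by
  classical
  unfold ind
  by_cases h : x ∈ A <;> by_cases h' : x ∈ B <;> simp [h, h']

/-- The sum over the words of a small function. -/
theorem W_small (hf : Sys β μ f) (h : BM φ) {A : Set X} (hA : MeasurableSet A) (n : ℕ) :
    |∫ x, W f n φ x * ind A x ∂μ| ≤ (Fintype.card S : ℝ) ^ n * ∫ x, |φ x| ∂μ := by
  have hab : BM fun x => |φ x| := ⟨h.1.abs, by
    obtain ⟨b, hb⟩ := h.2
    exact ⟨b, fun x => by rw [abs_abs]; exact hb x⟩⟩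
  rw [W_int hf h (BM.ind hA)]
  calc |∑ u : Fin n → S, ∫ x, φ (Pool.Agent.Helper73.OB.run f (List.ofFn u) x) * ind A x ∂μ|
      ≤ ∑ u : Fin n → S, |∫ x, φ (Pool.Agent.Helper73.OB.run f (List.ofFn u) x) * ind A x ∂μ| :=
        Finset.abs_sum_le_sum_abs _ _
    _ ≤ ∑ _u : Fin n → S, ∫ x, |φ x| ∂μ := by
        refine Finset.sum_le_sum fun u _ => ?_
        rw [← int_comp hf hab (List.ofFn u)]
        refine abs_integral_le_integral_abs.trans (int_mono (μ := μ) ?_ ?_ fun x => ?_)
        · have h1 := (h.run hf (List.ofFn u)).mul (BM.ind hA)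
          refine ⟨h1.1.abs, ?_⟩
          obtain ⟨b, hb⟩ := h1.2
          exact ⟨b, fun x => by rw [abs_abs]; exact hb x⟩
        · exact hab.run hf (List.ofFn u)
        · rw [abs_mul]
          have h1 : |ind A x| ≤ 1 := by
            unfold OB.ind
            by_cases h : x ∈ A
            · rw [Set.indicator_of_mem h, abs_one]
            · rw [Set.indicator_of_notMem h, abs_zero]
              exact zero_le_one
          calc |φ (Pool.Agent.Helper73.OB.run f (List.ofFn u) x)| * |ind A x|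
              ≤ |φ (Pool.Agent.Helper73.OB.run f (List.ofFn u) x)| * 1 :=
                mul_le_mul_of_nonneg_left h1 (abs_nonneg _)
            _ = |φ (Pool.Agent.Helper73.OB.run f (List.ofFn u) x)| := mul_one _
    _ = (Fintype.card S : ℝ) ^ n * ∫ x, |φ x| ∂μ := by
        rw [Finset.sum_const, Finset.card_univ, Fintype.card_fun, Fintype.card_fin, nsmul_eq_mul]
        push_cast
        rfl

end Words

theorem spec (hCYL : S_CYL) (hLCS : S_LCS) : S_SPEC := by
  classical
  intro S _ β hβ hcard X _ μ _ f hf L _ law _ l hl A B hA hB hAB n hnull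
  have hA1 := (approx hl hA (one_pos)).1
  have hB1 := (approx hl hB (one_pos)).1
  set m : ℝ := (Fintype.card S : ℝ) with hm
  set r : ℝ := 2 * Real.sqrt (m - 1) with hr
  have hm2 : (2 : ℝ) ≤ m := by
    rw [hm]
    exact_mod_cast hcard
  have hm0 : 0 < m := by linarith
  have hr0 : 0 ≤ r := by positivity
  set a : ℝ := μ.real A with ha
  have haB : μ.real B = a := by
    rw [ha, measureReal_def, measureReal_def, hAB]
  have ha0 : 0 ≤ a := measureReal_nonneg
  have ha1 : a ≤ 1 := measureReal_le_one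
  have hmn : 0 < m ^ n := by positivity
  -- the sum for `B` itself vanishes
  have hzero : ∫ x, W f n (ind B) x * ind A x ∂μ = 0 := by
    rw [W_int hf (BM.ind hB1) (BM.ind hA1)]
    refine Finset.sum_eq_zero fun u _ => ?_
    have h1 : μ (A ∩ run f (List.ofFn u) ⁻¹' B) = 0 := by
      have h2 := hnull (red β (List.ofFn u)) (red_Red β _)
        ((length_red _).trans (by rw [List.length_ofFn]))
      have h3 : run f (red β (List.ofFn u)) = run f (List.ofFn u) :=
        funext fun x => run_red hf.inv _ x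
      rwa [h3] at h2
    have h2 : ∀ x, ind B (run f (List.ofFn u) x) * ind A x =
        ind (A ∩ run f (List.ofFn u) ⁻¹' B) x := by
      intro x
      rw [mul_comm, ← ind_mul]
      rfl
    simp only [h2]
    rw [int_ind (hA1.inter ((hf.run_mp _).measurable hB1)), measureReal_def, h1]
    rfl
  -- the inequality with `ε`
  have key : ∀ ε : ℝ, 0 < ε → m ^ n * (a * a) ≤ r ^ n * (a + ε) + m ^ n * (2 * ε) + m ^ n * ε * a := by
    intro ε hε
    obtain ⟨-, Q, B', hQ, hB'1, hB', hlt⟩ := approx hl hB hε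
    set a' : ℝ := μ.real B' with ha'
    have ha'0 : 0 ≤ a' := measureReal_nonneg
    -- the function `φ`
    have hφ : BM fun x => ind B' x - a' := (BM.ind hB').sub (BM.const a')
    have hφ0 : ∫ x, (ind B' x - a') ∂μ = 0 := by
      rw [int_sub (BM.ind hB') (BM.const a'), int_ind hB']
      simp [ha']
    have hφm : Measurable[sig f l {w | w ∈ Q}] fun x => ind B' x - a' := by
      have h1 : Measurable[sig f l {w | w ∈ Q}] (ind B') := by
        unfold ind
        exact Measurable.indicator (@measurable_const _ _ _ (sig f l {w | w ∈ Q}) _) hB'1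
      exact h1.sub (@measurable_const _ _ _ (sig f l {w | w ∈ Q}) _)
    obtain ⟨C, hC⟩ := hCYL S β hβ hcard X μ f hf L law l hl Q hQ _ hφm hφ.2 hφ0
    have hb := bound hLCS hβ hf hφ ((BM.const (-1)).mul (BM.ind hA1)) hr0 hC n
    -- norms
    have hn1 : ∫ x, (ind B' x - a') * (ind B' x - a') ∂μ ≤ a' := by
      have h1 : ∀ x, (ind B' x - a') * (ind B' x - a') = ind B' x + (-2 * a' * ind B' x + a' * a') := by
        intro x
        have h2 : ind B' x * ind B' x = ind B' x := by rw [ind_mul, Set.inter_self]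
        linear_combination h2
      simp only [h1]
      rw [int_add (BM.ind hB') (((BM.const _).mul (BM.ind hB')).add (BM.const _)),
        int_add ((BM.const _).mul (BM.ind hB')) (BM.const _), integral_const_mul, int_ind hB',
        integral_const, probReal_univ, one_smul, ← ha']
      nlinarith
    have hn2 : ∫ x, (-1 * ind A x) * (-1 * ind A x) ∂μ = a := by
      have h1 : ∀ x, (-1 * ind A x) * (-1 * ind A x) = ind A x := by
        intro x
        have h2 : ind A x * ind A x = ind A x := by rw [ind_mul, Set.inter_self]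
        linear_combination h2
      simp only [h1]
      rw [int_ind hA1]
    -- distance of `B` and `B'`
    have hd : ∫ x, |ind B x - ind B' x| ∂μ < ε := by
      have h1 : ∀ x, |ind B x - ind B' x| = ind (B ∆ B') x := by
        intro x
        unfold ind
        by_cases h : x ∈ B <;> by_cases h' : x ∈ B' <;>
          simp [Set.indicator, Set.mem_symmDiff, h, h']
      simp only [h1]
      rw [int_ind (hB1.symmDiff hB'), measureReal_def]
      exact (ENNReal.toReal_lt_of_lt_ofReal hlt)
    have hda : |a - a'| ≤ ε := by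
      have h1 : a - a' = ∫ x, (ind B x - ind B' x) ∂μ := by
        rw [int_sub (BM.ind hB1) (BM.ind hB'), int_ind hB1, int_ind hB', haB]
      rw [h1]
      exact (abs_integral_le_integral_abs).trans hd.le
    have hda' := abs_le.1 hda
    -- decomposition
    have hsplit : ∀ x, W f n (ind B) x * ind A x = W f n (fun y => ind B' y - a') x * ind A x +
        (W f n (fun y => ind B y - ind B' y) x * ind A x + (m ^ n * a') * ind A x) := by
      intro x
      have h1 : W f n (ind B) x = W f n (fun y => (ind B' y - a') + ((ind B y - ind B' y) + a')) x := by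
        congr 1
        funext y
        ring
      rw [h1, W_add, W_add n (fun y => ind B y - ind B' y) (fun _ => a'), W_const, ← hm]
      ring
    have hBB : BM fun x => ind B x - ind B' x := (BM.ind hB1).sub (BM.ind hB')
    rw [show (fun x => W f n (ind B) x * ind A x) = fun x =>
      W f n (fun y => ind B' y - a') x * ind A x +
        (W f n (fun y => ind B y - ind B' y) x * ind A x + (m ^ n * a') * ind A x) from
      funext hsplit, int_add ((hφ.W hf n).mul (BM.ind hA1))
        (((hBB.W hf n).mul (BM.ind hA1)).add ((BM.const _).mul (BM.ind hA1))),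
      int_add ((hBB.W hf n).mul (BM.ind hA1)) ((BM.const _).mul (BM.ind hA1)), integral_const_mul,
      int_ind hA1] at hzero
    have hneg : ∫ x, W f n (fun y => ind B' y - a') x * (-1 * ind A x) ∂μ =
        -∫ x, W f n (fun y => ind B' y - a') x * ind A x ∂μ := by
      rw [← integral_neg]
      congr 1
      funext x
      ring
    rw [hneg, hn2] at hb
    have hsm := W_small hf hBB hA1 n
    rw [← hm] at hsm
    have hsm' := (abs_le.1 hsm).1
    -- the square roots
    have hsq : Real.sqrt (∫ x, (ind B' x - a') * (ind B' x - a') ∂μ) * Real.sqrt a ≤ a + ε := by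
      calc Real.sqrt (∫ x, (ind B' x - a') * (ind B' x - a') ∂μ) * Real.sqrt a
          ≤ Real.sqrt a' * Real.sqrt a :=
            mul_le_mul_of_nonneg_right (Real.sqrt_le_sqrt hn1) (Real.sqrt_nonneg _)
        _ ≤ (a' + a) / 2 := by
            nlinarith [sq_nonneg (Real.sqrt a' - Real.sqrt a), Real.sq_sqrt ha'0, Real.sq_sqrt ha0]
        _ ≤ a + ε := by linarith
    have hb' : r ^ n * Real.sqrt (∫ x, (ind B' x - a') * (ind B' x - a') ∂μ) * Real.sqrt a ≤
        r ^ n * (a + ε) := by
      rw [mul_assoc]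
      exact mul_le_mul_of_nonneg_left hsq (by positivity)
    have h5 : m ^ n * ∫ x, |ind B x - ind B' x| ∂μ ≤ m ^ n * ε :=
      mul_le_mul_of_nonneg_left hd.le hmn.le
    have h6 : m ^ n * (a * a) ≤ m ^ n * a' * a + m ^ n * ε * a := by
      have : m ^ n * (a * a) ≤ m ^ n * ((a' + ε) * a) :=
        mul_le_mul_of_nonneg_left (mul_le_mul_of_nonneg_right (by linarith) ha0) hmn.le
      linarith
    have h7 : 0 ≤ m ^ n * ε := by positivity
    linarith
  -- the limit
  have hfin : a * a ≤ (r / m) ^ n * a := by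
    have h1 : m ^ n * (a * a) ≤ r ^ n * a := by
      refine le_of_forall_pos_le_add fun η hη => ?_
      have hK : 0 < r ^ n + m ^ n * 2 + m ^ n * 1 := by positivity
      have h2 := key (η / (r ^ n + m ^ n * 2 + m ^ n * 1)) (by positivity)
      set ε := η / (r ^ n + m ^ n * 2 + m ^ n * 1) with hε
      have h3 : ε * (r ^ n + m ^ n * 2 + m ^ n * 1) = η := by
        rw [hε]
        field_simp
      have h4 : 0 ≤ ε := by positivity
      have h5 : m ^ n * ε * a ≤ m ^ n * ε * 1 :=
        mul_le_mul_of_nonneg_left ha1 (by positivity)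
      nlinarith
    rw [div_pow, div_mul_eq_mul_div, le_div_iff₀ hmn]
    linarith
  have hle : a ≤ (r / m) ^ n := by
    rcases eq_or_lt_of_le ha0 with h | h
    · rw [← h]
      positivity
    · exact le_of_mul_le_mul_right hfin h
  calc μ A = ENNReal.ofReal a := by rw [ha, ofReal_measureReal]
    _ ≤ ENNReal.ofReal ((r / m) ^ n) := ENNReal.ofReal_le_ofReal hle

end Pool.Agent.Helper41.OB
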